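import Mathlib
import Pool.Agent.H350R3.MF.Coord

set_option linter.unusedSectionVars false

namespace TH130PD
open MvPolynomial H350MF

noncomputable section

variable {σ : Type*} [Fintype σ] [DecidableEq σ]

lemma Dv_xm {v : σ → ℂ} {B : Finset σ} (hv : ∀ i, i ∉ B → v i = 0) (β : Finset σ) :
    D v (xm β) = ∑ i ∈ B ∩ β, v i • xm (β.erase i) := by
  rw [D_apply, ← Finset.sum_subset (Finset.subset_univ (B ∩ β))]
  · refine Finset.sum_congr rfl fun i hi => ?_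
    rw [Finset.mem_inter] at hi
    rw [pderiv_xm, if_pos hi.2]
  · intro i _ hi
    rw [Finset.mem_inter, not_and_or] at hi
    rcases hi with hi | hi
    · rw [hv i hi, zero_smul]
    · rw [pderiv_xm, if_neg hi, smul_zero]

lemma Dvpow_xm {v : σ → ℂ} {B : Finset σ} (hv : ∀ i, i ∉ B → v i = 0) (e : ℕ) :
    ∀ β : Finset σ,
    (D v ^ e) (xm β) ∈ Sp {γ | γ ⊆ β ∧ γ.card + e = β.card ∧ e ≤ (B ∩ β).card} := by
  induction e with
  | zero =>
    intro β
    simpa using xm_mem_Sp (P := {γ | γ ⊆ β ∧ γ.card + 0 = β.card ∧ 0 ≤ (B ∩ β).card}) (by simp)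
  | succ e ih =>
    intro β
    rw [pow_succ, Module.End.mul_apply, Dv_xm hv, map_sum]
    refine Submodule.sum_mem _ fun i hi => ?_
    rw [map_smul]
    refine Submodule.smul_mem _ _ ?_
    rw [Finset.mem_inter] at hi
    refine Sp_mono ?_ (ih (β.erase i))
    rintro γ ⟨h1, h2, h3⟩
    have h4 : (β.erase i).card + 1 = β.card := Finset.card_erase_add_one hi.2
    have h5 : (B ∩ β.erase i).card + 1 = (B ∩ β).card := by
      rw [Finset.inter_erase]
      exact Finset.card_erase_add_one (Finset.mem_inter.2 hi)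
    exact ⟨h1.trans (Finset.erase_subset _ _), by omega, by omega⟩

lemma Dvpow_Sp {v : σ → ℂ} {B : Finset σ} (hv : ∀ i, i ∉ B → v i = 0) (e : ℕ)
    {P : Set (Finset σ)} {F : MvPolynomial σ ℂ} (hF : F ∈ Sp P) :
    (D v ^ e) F ∈ Sp {γ | ∃ β ∈ P, γ ⊆ β ∧ γ.card + e = β.card ∧ e ≤ (B ∩ β).card} := by
  refine map_mem_of_Sp _ _ ?_ hF
  intro β hβ
  refine Sp_mono ?_ (Dvpow_xm hv e β)
  rintro γ ⟨h1, h2, h3⟩
  exact ⟨β, hβ, h1, h2, h3⟩

lemma Dvpow_Sp_zero {v : σ → ℂ} {B : Finset σ} (hv : ∀ i, i ∉ B → v i = 0) {e : ℕ}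
    {P : Set (Finset σ)} (hP : ∀ β ∈ P, (B ∩ β).card < e) {F : MvPolynomial σ ℂ}
    (hF : F ∈ Sp P) : (D v ^ e) F = 0 := by
  have h := Dvpow_Sp hv e hF
  have h2 : {γ | ∃ β ∈ P, γ ⊆ β ∧ γ.card + e = β.card ∧ e ≤ (B ∩ β).card}
      = (∅ : Set (Finset σ)) := by
    rw [Set.eq_empty_iff_forall_notMem]
    rintro γ ⟨β, hβ, _, _, h3⟩
    have := hP β hβ
    omega
  rw [h2, Sp_empty] at h
  simpa using h

/-- closed sets and minimal closed sets -/
structure Flats (d e : ℕ) {r : ℕ} (B : Fin r → Finset σ) (Fl : Set (Finset σ)) : Prop where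
  closed : ∀ U ∈ Fl, ∀ l, B l ⊆ U ∨ (B l ∩ U).card < e
  min : ∀ j, ∀ γ : Finset σ, γ.card + e ≤ d → ∃ U ∈ Fl, B j ⊆ U ∧ γ ⊆ U ∧
    ∀ U' ∈ Fl, B j ⊆ U' → γ ⊆ U' → U ⊆ U'

/-- the closed set `U` is good for the vectors `v` -/
def Good (d e : ℕ) {r : ℕ} (B : Fin r → Finset σ) (v : Fin r → σ → ℂ) (U : Finset σ) : Prop :=
  ∀ j, B j ⊆ U → ∀ i, i + e ≤ d → ∀ H ∈ Sp {δ : Finset σ | δ ⊆ U ∧ δ.card = i},
    (∀ l : Fin r, l < j → (D (v l) ^ e) H = 0) →
    ∃ F ∈ Sp {δ : Finset σ | δ ⊆ U ∧ δ.card = i + e},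
      (∀ l : Fin r, l < j → B l ⊆ U → (D (v l) ^ e) F = 0) ∧ (D (v j) ^ e) F = H

/-- the local projections after `j` blocks -/
def PK (d e : ℕ) {r : ℕ} (v : Fin r → σ → ℂ) (Fl : Set (Finset σ)) (j : ℕ)
    (ρ : Finset σ → MvPolynomial σ ℂ) : Prop :=
  (∀ β : Finset σ, β.card ≤ d →
    ρ β ∈ Sp {δ : Finset σ | δ.card = β.card ∧ ∀ U ∈ Fl, β ⊆ U → δ ⊆ U}) ∧
  (∀ β : Finset σ, β.card ≤ d → ∀ l : Fin r, l.val < j → (D (v l) ^ e) (ρ β) = 0) ∧
  (∀ i ≤ d, ∀ F ∈ Sp {β : Finset σ | β.card = i},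
    (∀ l : Fin r, l.val < j → (D (v l) ^ e) F = 0) → F = ∑ β, coeff (ind β) F • ρ β)

lemma PK_zero (d e : ℕ) {r : ℕ} (v : Fin r → σ → ℂ) (Fl : Set (Finset σ)) :
    PK d e v Fl 0 xm := by
  refine ⟨?_, ?_, ?_⟩
  · intro β _
    exact xm_mem_Sp ⟨rfl, fun U _ h => h⟩
  · intro β hβ l hl; omega
  · intro i _ F hF _
    exact Sp_decomp hF

variable {d e r : ℕ} {B : Fin r → Finset σ} {v : Fin r → σ → ℂ} {Fl : Set (Finset σ)}

/-- the local right inverses of the `j`-th constraint -/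
lemma PK_lift (hv : ∀ l, ∀ i, i ∉ B l → v l i = 0) (hF : Flats d e B Fl)
    (hG : ∀ U ∈ Fl, Good d e B v U) (j : Fin r)
    {ρ : Finset σ → MvPolynomial σ ℂ} (h : PK d e v Fl j.val ρ)
    (γ : Finset σ) (hγ : γ.card + e ≤ d) :
    ∃ (lam : MvPolynomial σ ℂ), 
      lam ∈ Sp {δ : Finset σ | δ.card = γ.card + e ∧ ∀ U ∈ Fl, B j ⊆ U → γ ⊆ U → δ ⊆ U} ∧
      (D (v j) ^ e) lam = ρ γ ∧ ∀ l : Fin r, l.val < j.val → (D (v l) ^ e) lam = 0 := by
  obtain ⟨h1, h2, h3⟩ := h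
  obtain ⟨U, hU, hjU, hγU, hmin⟩ := hF.min j γ hγ
  have h4 : ρ γ ∈ Sp {δ : Finset σ | δ ⊆ U ∧ δ.card = γ.card} := by
    refine Sp_mono ?_ (h1 γ (by omega))
    rintro δ ⟨a1, a2⟩
    exact ⟨a2 U hU hγU, a1⟩
  obtain ⟨F, hF1, hF2, hF3⟩ := hG U hU j hjU γ.card hγ (ρ γ) h4
    (fun l hl => h2 γ (by omega) l hl)
  refine ⟨F, ?_, hF3, ?_⟩
  · refine Sp_mono ?_ hF1
    rintro δ ⟨a1, a2⟩
    exact ⟨a2, fun U' hU' h5 h6 => a1.trans (hmin U' hU' h5 h6)⟩
  · intro l hl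
    rcases hF.closed U hU l with h5 | h5
    · exact hF2 l hl h5
    · refine Dvpow_Sp_zero (hv l) ?_ hF1
      rintro δ ⟨a1, _⟩
      exact lt_of_le_of_lt (Finset.card_le_card (Finset.inter_subset_inter_left a1)) h5

/-- surjectivity of the `j`-th constraint on the common kernel of the previous ones -/
lemma PK_surj (hv : ∀ l, ∀ i, i ∉ B l → v l i = 0) (hFl : Flats d e B Fl)
    (hG : ∀ U ∈ Fl, Good d e B v U) (j : Fin r)
    {ρ : Finset σ → MvPolynomial σ ℂ} (h : PK d e v Fl j.val ρ)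
    {i : ℕ} (hi : i + e ≤ d) {H : MvPolynomial σ ℂ} (hH : H ∈ Sp {β : Finset σ | β.card = i})
    (hH0 : ∀ l : Fin r, l.val < j.val → (D (v l) ^ e) H = 0) :
    ∃ F ∈ Sp {β : Finset σ | β.card = i + e},
      (∀ l : Fin r, l.val < j.val → (D (v l) ^ e) F = 0) ∧ (D (v j) ^ e) F = H := by
  classical
  have hlift := fun γ : Finset σ => PK_lift hv hFl hG j h γ
  choose! lam hl1 hl2 hl3 using hlift
  have hcard : ∀ γ : Finset σ, coeff (ind γ) H ≠ 0 → γ.card = i := fun γ hγ =>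
    coeff_mem_of_Sp hH hγ
  refine ⟨∑ γ, coeff (ind γ) H • lam γ, ?_, ?_, ?_⟩
  · refine Submodule.sum_mem _ fun γ _ => ?_
    by_cases hγ : coeff (ind γ) H = 0
    · rw [hγ, zero_smul]; exact Submodule.zero_mem _
    · have hc := hcard γ hγ
      refine Submodule.smul_mem _ _ (Sp_mono ?_ (hl1 γ (by omega)))
      rintro δ ⟨h2, _⟩
      change δ.card = i + e
      omega
  · intro l hl
    rw [map_sum]
    refine Finset.sum_eq_zero fun γ _ => ?_
    by_cases hγ : coeff (ind γ) H = 0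
    · rw [hγ, zero_smul, map_zero]
    · rw [map_smul, hl3 γ (by have := hcard γ hγ; omega) l hl, smul_zero]
  · rw [map_sum]
    conv_rhs => rw [h.2.2 i (by omega) H hH hH0]
    refine Finset.sum_congr rfl fun γ _ => ?_
    by_cases hγ : coeff (ind γ) H = 0
    · rw [hγ, zero_smul, map_zero, zero_smul]
    · rw [map_smul, hl2 γ (by have := hcard γ hγ; omega)]

lemma PK_succ (hv : ∀ l, ∀ i, i ∉ B l → v l i = 0) (hFl : Flats d e B Fl)
    (hG : ∀ U ∈ Fl, Good d e B v U) (j : Fin r)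
    {ρ : Finset σ → MvPolynomial σ ℂ} (h : PK d e v Fl j.val ρ) :
    ∃ ρ', PK d e v Fl (j.val + 1) ρ' := by
  classical
  have hlift := fun γ : Finset σ => PK_lift hv hFl hG j h γ
  choose! lam hl1 hl2 hl3 using hlift
  obtain ⟨h1, h3, h4⟩ := h
  let Λ : MvPolynomial σ ℂ →ₗ[ℂ] MvPolynomial σ ℂ :=
    ∑ γ : Finset σ, (lcoeff ℂ (ind γ)).smulRight (lam γ)
  have hΛ : ∀ F, Λ F = ∑ γ : Finset σ, coeff (ind γ) F • lam γ := by
    intro F
    simp only [Λ, LinearMap.sum_apply, LinearMap.smulRight_apply, lcoeff_apply]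
  let ρ' : Finset σ → MvPolynomial σ ℂ := fun β => ρ β - Λ ((D (v j) ^ e) (ρ β))
  have hcoef : ∀ β : Finset σ, β.card ≤ d → ∀ γ : Finset σ,
      coeff (ind γ) ((D (v j) ^ e) (ρ β)) ≠ 0 →
      γ.card + e = β.card ∧ ∀ U ∈ Fl, β ⊆ U → B j ⊆ U ∧ γ ⊆ U := by
    intro β hβ γ hγ
    obtain ⟨β', ⟨hb2, hb3⟩, hg1, hg2, hg3⟩ :=
      coeff_mem_of_Sp (Dvpow_Sp (hv j) e (h1 β hβ)) hγ
    refine ⟨by omega, fun U hU hβU => ?_⟩
    have h5 := hb3 U hU hβU
    refine ⟨?_, hg1.trans h5⟩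
    rcases hFl.closed U hU j with h6 | h6
    · exact h6
    · exfalso
      have := Finset.card_le_card (Finset.inter_subset_inter_left h5 (s := B j))
      omega
  refine ⟨ρ', ?_, ?_, ?_⟩
  · intro β hβ
    refine Submodule.sub_mem _ (h1 β hβ) ?_
    rw [hΛ]
    refine Submodule.sum_mem _ fun γ _ => ?_
    by_cases hγ : coeff (ind γ) ((D (v j) ^ e) (ρ β)) = 0
    · rw [hγ, zero_smul]; exact Submodule.zero_mem _
    · obtain ⟨c1, c2⟩ := hcoef β hβ γ hγ
      refine Submodule.smul_mem _ _ (Sp_mono ?_ (hl1 γ (by omega)))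
      rintro δ ⟨a2, a3⟩
      refine ⟨by omega, fun U hU hβU => ?_⟩
      obtain ⟨c3, c4⟩ := c2 U hU hβU
      exact a3 U hU c3 c4
  · intro β hβ l hl
    change (D (v l) ^ e) (ρ β - Λ ((D (v j) ^ e) (ρ β))) = 0
    rw [map_sub, hΛ, map_sum]
    by_cases hlj : l.val < j.val
    · rw [h3 β hβ l hlj, zero_sub, neg_eq_zero]
      refine Finset.sum_eq_zero fun γ _ => ?_
      by_cases hγ : coeff (ind γ) ((D (v j) ^ e) (ρ β)) = 0
      · rw [hγ, zero_smul, map_zero]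
      · obtain ⟨c1, _⟩ := hcoef β hβ γ hγ
        rw [map_smul, hl3 γ (by omega) l hlj, smul_zero]
    · have hlj' : l = j := Fin.ext (by omega)
      subst hlj'
      rw [sub_eq_zero]
      have hF : (D (v l) ^ e) (ρ β) ∈ Sp {γ : Finset σ | γ.card = β.card - e} := by
        refine Sp_mono ?_ (Dvpow_Sp (hv l) e (h1 β hβ))
        rintro γ ⟨β', ⟨a2, _⟩, _, a4, _⟩
        change γ.card = β.card - e
        omega
      conv_lhs => rw [h4 (β.card - e) (by omega) _ hF (by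
        intro l' hl'
        rw [Dpow_comm_apply, h3 β hβ l' hl', map_zero])]
      refine Finset.sum_congr rfl fun γ _ => ?_
      by_cases hγ : coeff (ind γ) ((D (v l) ^ e) (ρ β)) = 0
      · rw [hγ, zero_smul, zero_smul, map_zero]
      · obtain ⟨c1, _⟩ := hcoef β hβ γ hγ
        rw [map_smul, hl2 γ (by omega)]
  · intro i hi F hF hF0
    have h5 := h4 i hi F hF fun l hl => hF0 l (by omega)
    have h6 : ∑ β, coeff (ind β) F • ρ' β
        = (∑ β, coeff (ind β) F • ρ β) - Λ ((D (v j) ^ e) (∑ β, coeff (ind β) F • ρ β)) := by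
      rw [map_sum, map_sum, ← Finset.sum_sub_distrib]
      refine Finset.sum_congr rfl fun β _ => ?_
      rw [map_smul, map_smul, ← smul_sub]
    rw [h6, ← h5, hF0 j (by omega), map_zero, sub_zero]

lemma exists_PK (hv : ∀ l, ∀ i, i ∉ B l → v l i = 0) (hFl : Flats d e B Fl)
    (hG : ∀ U ∈ Fl, Good d e B v U) : ∀ j ≤ r, ∃ ρ, PK d e v Fl j ρ := by
  intro j
  induction j with
  | zero => intro _; exact ⟨xm, PK_zero d e v Fl⟩
  | succ j ih =>
    intro hj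
    obtain ⟨ρ, h⟩ := ih (by omega)
    exact PK_succ hv hFl hG ⟨j, by omega⟩ h

/-- local to global -/
theorem glob_surj (hv : ∀ l, ∀ i, i ∉ B l → v l i = 0) (hFl : Flats d e B Fl)
    (hG : ∀ U ∈ Fl, Good d e B v U) (j : Fin r)
    {i : ℕ} (hi : i + e ≤ d) {H : MvPolynomial σ ℂ} (hH : H ∈ Sp {β : Finset σ | β.card = i})
    (hH0 : ∀ l : Fin r, l.val < j.val → (D (v l) ^ e) H = 0) :
    ∃ F ∈ Sp {β : Finset σ | β.card = i + e},
      (∀ l : Fin r, l.val < j.val → (D (v l) ^ e) F = 0) ∧ (D (v j) ^ e) F = H := by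
  obtain ⟨ρ, h⟩ := exists_PK hv hFl hG j.val j.2.le
  exact PK_surj hv hFl hG j h hi hH hH0

/-! ### lists -/

/-- the `l`-th constraint -/
def vc (e : ℕ) {r : ℕ} (v : Fin r → σ → ℂ) (l : ℕ) : (σ → ℂ) × ℕ :=
  if h : l < r then (v ⟨l, h⟩, e) else (0, e)

/-- first `j` blocks together with all the coordinate constraints -/
def fullV (e : ℕ) {r : ℕ} (v : Fin r → σ → ℂ) (j : ℕ) : List ((σ → ℂ) × ℕ) :=
  (List.range j).reverse.map (vc e v) ++ coordList (Finset.univ : Finset σ).toList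

lemma fullV_succ (e : ℕ) {r : ℕ} (v : Fin r → σ → ℂ) (j : ℕ) :
    fullV e v (j + 1) = vc e v j :: fullV e v j := by
  unfold fullV
  rw [List.range_succ, List.reverse_append]
  rfl

lemma mem_K_fullV {e : ℕ} {r : ℕ} {v : Fin r → σ → ℂ} {j : ℕ} (hj : j ≤ r) {i : ℕ}
    {F : MvPolynomial σ ℂ} :
    F ∈ K (fullV e v j) i ↔ F ∈ Sp {β : Finset σ | β.card = i} ∧
      ∀ l : Fin r, l.val < j → (D (v l) ^ e) F = 0 := by
  rw [mem_K]
  constructor
  · rintro ⟨h1, h2⟩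
    refine ⟨mem_Sp_of_hom h1 fun k => ?_, fun l hl => ?_⟩
    · have := h2 (Pi.single k 1, 2) (by
        unfold fullV coordList
        rw [List.mem_append]
        right
        rw [List.mem_map]
        exact ⟨k, by simp, rfl⟩)
      rwa [D_single_sq] at this
    · have := h2 (vc e v l.val) (by
        unfold fullV
        rw [List.mem_append]
        left
        rw [List.mem_map]
        exact ⟨l.val, by simpa using hl, rfl⟩)
      have h3 : vc e v l.val = (v l, e) := by simp [vc, l.2]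
      rwa [h3] at this
  · rintro ⟨h1, h2⟩
    obtain ⟨h3, h4⟩ := Sp_hom h1
    refine ⟨h3, ?_⟩
    intro c hc
    unfold fullV coordList at hc
    rw [List.mem_append, List.mem_map, List.mem_map] at hc
    rcases hc with ⟨l, hl, rfl⟩ | ⟨k, _, rfl⟩
    · have hl' : l < j := by simpa using hl
      have hlr : l < r := by omega
      have h5 : vc e v l = (v ⟨l, hlr⟩, e) := by simp [vc, hlr]
      rw [h5]
      exact h2 ⟨l, hlr⟩ hl'
    · rw [D_single_sq]; exact h4 k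

lemma EQ_fullV (hv : ∀ l, ∀ i, i ∉ B l → v l i = 0) (hFl : Flats d e B Fl)
    (hG : ∀ U ∈ Fl, Good d e B v U) : ∀ j ≤ r, EQ d (fullV e v j) := by
  intro j
  induction j with
  | zero =>
    intro _
    unfold fullV
    simpa using EQ_coord d _ (Finset.nodup_toList Finset.univ)
  | succ j ih =>
    intro hj
    rw [fullV_succ]
    have h5 : vc e v j = (v ⟨j, hj⟩, e) := by
      have : j < r := hj
      simp [vc, this]
    rw [h5]
    refine EQ_cons_of_surj (ih (by omega)) ?_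
    intro i hi H hH
    rw [mem_K_fullV (by omega)] at hH
    obtain ⟨F, hF1, hF2, hF3⟩ := glob_surj hv hFl hG ⟨j, hj⟩ hi hH.1 hH.2
    exact ⟨F, (mem_K_fullV (by omega)).2 ⟨hF1, hF2⟩, hF3⟩

/-- the point configuration of a system of vectors -/
def vPts {r : ℕ} (v : Fin r → σ → ℂ) : Fin r × σ → ℂ := fun x => v x.1 x.2

lemma UB_vpts (hv : ∀ l, ∀ i, i ∉ B l → v l i = 0) (hFl : Flats d e B Fl)
    (hG : ∀ U ∈ Fl, Good d e B v U) : UB d (ptList e (vPts v)) := by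
  have h1 := UB_of_EQ (EQ_fullV hv hFl hG r le_rfl)
  have h2 : ptList e (vPts v) = (List.range r).map (vc e v) := by
    unfold ptList
    rw [List.ofFn_eq_map, ← List.map_coe_finRange_eq_range, List.map_map]
    refine List.map_congr_left fun k _ => ?_
    simp only [Function.comp_apply, vc, k.2, dif_pos]
    rfl
  have h3 : (fullV e v r).Perm (coordList (Finset.univ : Finset σ).toList ++
      ptList e (vPts v)) := by
    unfold fullV
    rw [h2]
    refine List.perm_append_comm.trans ?_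
    exact List.Perm.append_left _ ((List.reverse_perm _).map _)
  refine UB_append_right ?_ (UB_perm h3 h1)
  intro c hc
  obtain ⟨k, _, rfl⟩ := List.mem_map.1 hc
  exact Nat.zero_lt_two

/-- generic dimensions from the upper bound at one configuration -/
theorem generic_of_UB {d e r : ℕ} (he : 0 < e) {P0 : Fin r × σ → ℂ} (hP0 : UB d (ptList e P0)) :
    ∃ Φ : MvPolynomial (Fin r × σ) ℂ, Φ ≠ 0 ∧ ∀ P, eval P Φ ≠ 0 →
      (Module.finrank ℂ (K (ptList e P) d) : ℤ) =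
        ∑ l ∈ Finset.range (d / e + 1), (-1 : ℤ) ^ l * (r.choose l : ℤ) * gj σ (d - l * e) := by
  obtain ⟨Φ, h0, hΦ⟩ := generic_K_all e d P0
  refine ⟨Φ, h0, fun P hP => ?_⟩
  have h1 : UB d (ptList e P) := by
    intro j hj
    have h2 := hP0 j hj
    rw [map_snd_ptList] at h2 ⊢
    have h3 := hΦ P hP j hj
    exact (Nat.cast_le.2 h3).trans h2
  have h4 := EQ_of_UB (by
    intro c hc
    obtain ⟨k, rfl⟩ := exists_of_mem_ptList hc
    exact he) h1 d le_rfl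
  rw [h4, map_snd_ptList, E_closed _ he]

end
end TH130PD
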