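import Mathlib
import Pool.Agent.H350R3.MF.Comb
import Pool.Agent.TH130.PD.Reg

set_option linter.unusedSectionVars false

namespace TH130PD
open H350MF

noncomputable section

variable {σ : Type*} [Fintype σ] [DecidableEq σ] {k n0 r : ℕ} (ι : Fin r → (Fin k × Fin n0 ↪ σ))
  (Bf : Fin r → Finset σ)

/-- the blocks which may meet `Sb f ∪ Z` a lot -/
def Mset (e : ℕ) (i : Fin r) (f : Fin k → Fin n0) (Z : Finset σ) : Finset (Fin r) :=
  Finset.univ.filter fun g => g ≠ i ∧ e ≤ (Bf g ∩ (Sb (ι i) f ∪ Z)).card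

lemma card_Mset {e z : ℕ} (hBf : ∀ i j, i ≠ j → (Bf i ∩ Bf j).card < e) (i : Fin r)
    (f : Fin k → Fin n0) {Z : Finset σ} (hZ : Z.card ≤ z) :
    (Mset ι Bf e i f Z).card ≤ 2 ^ (k + z) := by
  have h1 : Mset ι Bf e i f Z ⊆ act e Bf (Sb (ι i) f ∪ Z) := by
    intro g hg
    rw [mem_act]
    simp only [Mset, Finset.mem_filter] at hg
    exact hg.2.2
  refine (Finset.card_le_card h1).trans ((card_act_le hBf _).trans ?_)
  refine Nat.pow_le_pow_right (by norm_num) ((Finset.card_union_le _ _).trans ?_)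
  rw [card_Sb]
  omega

/-- the bad event -/
def Ev (e : ℕ) (i : Fin r) (f : Fin k → Fin n0) (Z : Finset σ) (A : Finset (Fin r)) :
    Finset (Fin r → Fin k → Fin n0) :=
  Finset.univ.filter fun χ => χ i = f ∧
    ∀ g ∈ A, e ≤ (Sb (ι g) (χ g) ∩ (Sb (ι i) f ∪ Z)).card

lemma card_Ev {e z L : ℕ} {i : Fin r} {f : Fin k → Fin n0} {Z : Finset σ} (hZ : Z.card ≤ z)
    {A : Finset (Fin r)} (hi : i ∉ A) (hA : A.card = L + 1) :
    (Ev ι e i f Z A).card * (n0 ^ k) ^ (L + 2) ≤
      (2 ^ k * (k + z) ^ e * n0 ^ (k - e)) ^ (L + 1) * (n0 ^ k) ^ r := by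
  classical
  obtain ⟨b, hb⟩ : ∃ b, b = 2 ^ k * (k + z) ^ e * n0 ^ (k - e) := ⟨_, rfl⟩
  obtain ⟨Q, hQ⟩ : ∃ Q, Q = n0 ^ k := ⟨_, rfl⟩
  rw [← hb, ← hQ]
  let T : Fin r → Finset (Fin k → Fin n0) := fun l =>
    if l = i then {f} else if l ∈ A then
      (Finset.univ.filter fun g => e ≤ (Sb (ι l) g ∩ (Sb (ι i) f ∪ Z)).card) else Finset.univ
  have h1 : Ev ι e i f Z A ⊆ Fintype.piFinset T := by
    intro χ hχ
    simp only [Ev, Finset.mem_filter] at hχ
    rw [Fintype.mem_piFinset]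
    intro l
    simp only [T]
    by_cases h1 : l = i
    · subst h1
      rw [if_pos rfl, Finset.mem_singleton]
      exact hχ.2.1
    · rw [if_neg h1]
      by_cases h2 : l ∈ A
      · rw [if_pos h2, Finset.mem_filter]
        exact ⟨Finset.mem_univ _, hχ.2.2 l h2⟩
      · rw [if_neg h2]; exact Finset.mem_univ _
  have h2 : (Ev ι e i f Z A).card ≤ ∏ l, if l = i then 1 else if l ∈ A then b else Q := by
    refine (Finset.card_le_card h1).trans ?_
    rw [Fintype.card_piFinset]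
    refine Finset.prod_le_prod' fun l _ => ?_
    simp only [T]
    by_cases h1 : l = i
    · rw [if_pos h1, if_pos h1, Finset.card_singleton]
    · rw [if_neg h1, if_neg h1]
      by_cases h2 : l ∈ A
      · rw [if_pos h2, if_pos h2]
        refine (count_bad (ι l) e _).trans ?_
        rw [hb]
        have h3 : (Sb (ι i) f ∪ Z).card ≤ k + z := by
          refine (Finset.card_union_le _ _).trans ?_
          rw [card_Sb]; omega
        gcongr
      · rw [if_neg h2, if_neg h2, Finset.card_univ, Fintype.card_fun, Fintype.card_fin,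
          Fintype.card_fin, hQ]
  have h3 : Q ^ (L + 2) = ∏ l : Fin r, if l ∈ insert i A then Q else 1 := by
    rw [Finset.prod_ite_mem, Finset.univ_inter, Finset.prod_const,
      Finset.card_insert_of_notMem hi, hA]
  have h4 : b ^ (L + 1) * Q ^ r = ∏ l : Fin r, (if l ∈ A then b else 1) * Q := by
    rw [Finset.prod_mul_distrib, Finset.prod_ite_mem, Finset.univ_inter, Finset.prod_const, hA,
      Finset.prod_const, Finset.card_univ, Fintype.card_fin]
  refine (Nat.mul_le_mul_right _ h2).trans ?_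
  rw [h3, h4, ← Finset.prod_mul_distrib]
  refine Finset.prod_le_prod' fun l _ => ?_
  by_cases h1 : l = i
  · subst h1
    rw [if_pos rfl, if_pos (Finset.mem_insert_self _ _), if_neg hi]
  · rw [if_neg h1]
    by_cases h2 : l ∈ A
    · rw [if_pos h2, if_pos (Finset.mem_insert_of_mem h2), if_pos h2]
    · rw [if_neg h2, if_neg (by rw [Finset.mem_insert]; tauto), if_neg h2]
      rw [mul_one, one_mul]

theorem exists_choice {e z L N : ℕ} (hn0 : 0 < n0)
    (hBf : ∀ i j, i ≠ j → (Bf i ∩ Bf j).card < e)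
    {U0 : Finset σ} (hU0 : U0.card ≤ N)
    (hnum : r * N ^ z * 2 ^ (2 ^ (k + z)) * (2 ^ k * (k + z) ^ e * n0 ^ (k - e)) ^ (L + 1)
      < (n0 ^ k) ^ (L + 1)) :
    ∃ χ : Fin r → Fin k → Fin n0, ∀ i, ∀ Z ⊆ U0, Z.card = z →
      ∀ A ⊆ Mset ι Bf e i (χ i) Z, A.card = L + 1 →
        ¬ ∀ g ∈ A, e ≤ (Sb (ι g) (χ g) ∩ (Sb (ι i) (χ i) ∪ Z)).card := by
  classical
  obtain ⟨b, hb⟩ : ∃ b, b = 2 ^ k * (k + z) ^ e * n0 ^ (k - e) := ⟨_, rfl⟩
  obtain ⟨Q, hQ⟩ : ∃ Q, Q = n0 ^ k := ⟨_, rfl⟩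
  have hQ0 : 0 < Q := by rw [hQ]; positivity
  obtain ⟨c, hc⟩ : ∃ c, c = b ^ (L + 1) * Q ^ r / Q ^ (L + 2) := ⟨_, rfl⟩
  rw [← hb, ← hQ] at hnum
  let Bad : Finset (Fin r → Fin k → Fin n0) := Finset.univ.biUnion fun i =>
    (U0.powersetCard z).biUnion fun Z => (Finset.univ : Finset (Fin k → Fin n0)).biUnion fun f =>
      ((Mset ι Bf e i f Z).powersetCard (L + 1)).biUnion fun A => Ev ι e i f Z A
  have h1 : Bad.card ≤ r * (N ^ z * (Q * (2 ^ (2 ^ (k + z)) * c))) := by
    refine (Finset.card_biUnion_le_card_mul _ _ (N ^ z * (Q * (2 ^ (2 ^ (k + z)) * c))) ?_).trans ?_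
    · intro i _
      refine (Finset.card_biUnion_le_card_mul _ _ (Q * (2 ^ (2 ^ (k + z)) * c)) ?_).trans ?_
      · intro Z hZ
        rw [Finset.mem_powersetCard] at hZ
        refine (Finset.card_biUnion_le_card_mul _ _ (2 ^ (2 ^ (k + z)) * c) ?_).trans ?_
        · intro f _
          refine (Finset.card_biUnion_le_card_mul _ _ c ?_).trans ?_
          · intro A hA
            rw [Finset.mem_powersetCard] at hA
            rw [hc, Nat.le_div_iff_mul_le (by positivity), hQ, hb]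
            refine card_Ev ι hZ.2.le ?_ hA.2
            intro h
            have := hA.1 h
            simp only [Mset, Finset.mem_filter] at this
            exact this.2.1 rfl
          · refine Nat.mul_le_mul_right _ ?_
            rw [Finset.card_powersetCard]
            exact (Nat.choose_le_two_pow _ _).trans
              (Nat.pow_le_pow_right (by norm_num) (card_Mset ι Bf hBf i f hZ.2.le))
        · refine Nat.mul_le_mul_right _ ?_
          rw [Finset.card_univ, Fintype.card_fun, Fintype.card_fin, Fintype.card_fin, hQ]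
      · refine Nat.mul_le_mul_right _ ?_
        rw [Finset.card_powersetCard]
        exact (Nat.choose_le_pow _ _).trans (Nat.pow_le_pow_left hU0 _)
    · rw [Finset.card_univ, Fintype.card_fin]
  have h2 : c * Q ^ (L + 2) ≤ b ^ (L + 1) * Q ^ r := by
    rw [hc]; exact Nat.div_mul_le_self _ _
  have h3 : r * (N ^ z * (Q * (2 ^ (2 ^ (k + z)) * c))) < Q ^ r := by
    have h4 : r * (N ^ z * (Q * (2 ^ (2 ^ (k + z)) * c))) * Q ^ (L + 1) < Q ^ r * Q ^ (L + 1) := by
      calc r * (N ^ z * (Q * (2 ^ (2 ^ (k + z)) * c))) * Q ^ (L + 1)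
          = r * N ^ z * 2 ^ (2 ^ (k + z)) * (c * Q ^ (L + 2)) := by
            rw [pow_succ Q (L + 1)]; ring
        _ ≤ r * N ^ z * 2 ^ (2 ^ (k + z)) * (b ^ (L + 1) * Q ^ r) := Nat.mul_le_mul_left _ h2
        _ = (r * N ^ z * 2 ^ (2 ^ (k + z)) * b ^ (L + 1)) * Q ^ r := by ring
        _ < Q ^ (L + 1) * Q ^ r := Nat.mul_lt_mul_of_pos_right hnum (by positivity)
        _ = Q ^ r * Q ^ (L + 1) := mul_comm _ _
    exact lt_of_mul_lt_mul_right h4 (Nat.zero_le _)
  have h4 : Bad.card < Fintype.card (Fin r → Fin k → Fin n0) := by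
    have : Fintype.card (Fin r → Fin k → Fin n0) = Q ^ r := by
      rw [Fintype.card_fun, Fintype.card_fun, Fintype.card_fin, Fintype.card_fin,
        Fintype.card_fin, hQ]
    rw [this]
    exact h1.trans_lt h3
  obtain ⟨χ, hχ⟩ : ∃ χ, χ ∉ Bad := by
    by_contra hcon
    push Not at hcon
    have : Bad = Finset.univ := Finset.eq_univ_iff_forall.2 hcon
    rw [this, Finset.card_univ] at h4
    exact lt_irrefl _ h4
  refine ⟨χ, ?_⟩
  intro i Z hZ hZc A hA hAc hall
  apply hχ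
  simp only [Bad, Finset.mem_biUnion]
  refine ⟨i, Finset.mem_univ _, Z, Finset.mem_powersetCard.2 ⟨hZ, hZc⟩, χ i, Finset.mem_univ _,
    A, Finset.mem_powersetCard.2 ⟨hA, hAc⟩, ?_⟩
  simp only [Ev, Finset.mem_filter]
  exact ⟨Finset.mem_univ _, trivial, hall⟩

theorem exists_subdesign {e z t L N : ℕ} (hn0 : 0 < n0) (hk : z + L * e + t ≤ k)
    (hBf : ∀ i j, i ≠ j → (Bf i ∩ Bf j).card < e)
    (hsub : ∀ i f, Sb (ι i) f ⊆ Bf i)
    {U0 : Finset σ} (hU0 : U0.card ≤ N) (hBU : ∀ i, Bf i ⊆ U0)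
    (hnum : r * N ^ z * 2 ^ (2 ^ (k + z)) * (2 ^ k * (k + z) ^ e * n0 ^ (k - e)) ^ (L + 1)
      < (n0 ^ k) ^ (L + 1)) :
    ∃ χ : Fin r → Fin k → Fin n0, Design e z t (fun i => Sb (ι i) (χ i)) := by
  classical
  obtain ⟨χ, hχ⟩ := exists_choice ι Bf hn0 hBf hU0 hnum
  have hinter : ∀ i j, i ≠ j → (Sb (ι i) (χ i) ∩ Sb (ι j) (χ j)).card < e := by
    intro i j hij
    exact lt_of_le_of_lt (Finset.card_le_card
      (Finset.inter_subset_inter (hsub i _) (hsub j _))) (hBf i j hij)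
  refine ⟨χ, hinter, ?_⟩
  intro i Z hZ
  have hsU : ∀ j, Sb (ι j) (χ j) ⊆ U0 := fun j => (hsub j _).trans (hBU j)
  have hzU : z ≤ U0.card := by
    have h1 := Finset.card_le_card (hsU i)
    rw [card_Sb] at h1
    have := Nat.zero_le (L * e)
    omega
  obtain ⟨Z1, hZ1, hZ1U, hZ1c⟩ := Finset.exists_subsuperset_card_eq
    (Finset.inter_subset_right (s₁ := Z) (s₂ := U0))
    ((Finset.card_le_card Finset.inter_subset_left).trans hZ) hzU
  let G : Finset (Fin r) := Finset.univ.filter fun g => g ≠ i ∧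
    e ≤ (Sb (ι g) (χ g) ∩ (Sb (ι i) (χ i) ∪ Z1)).card
  have hG : G.card ≤ L := by
    by_contra hcon
    push Not at hcon
    obtain ⟨A', hA1, hA2⟩ := Finset.exists_subset_card_eq (Nat.succ_le_of_lt hcon)
    refine hχ i Z1 hZ1U hZ1c A' ?_ hA2 ?_
    · intro g hg
      have := hA1 hg
      simp only [G, Finset.mem_filter] at this
      simp only [Mset, Finset.mem_filter]
      refine ⟨Finset.mem_univ _, this.2.1, this.2.2.trans (Finset.card_le_card ?_)⟩
      exact Finset.inter_subset_inter_right (hsub g _)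
    · intro g hg
      have := hA1 hg
      simp only [G, Finset.mem_filter] at this
      exact this.2.2
  have hcard : t ≤ (Sb (ι i) (χ i) \
      (Z1 ∪ G.biUnion fun g => Sb (ι i) (χ i) ∩ Sb (ι g) (χ g))).card := by
    have h3 := Finset.le_card_sdiff (Z1 ∪ G.biUnion fun g => Sb (ι i) (χ i) ∩ Sb (ι g) (χ g))
      (Sb (ι i) (χ i))
    have h4 : (Z1 ∪ G.biUnion fun g => Sb (ι i) (χ i) ∩ Sb (ι g) (χ g)).card ≤ z + L * e := by
      refine (Finset.card_union_le _ _).trans ?_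
      rw [hZ1c]
      refine Nat.add_le_add_left ?_ _
      refine (Finset.card_biUnion_le_card_mul _ _ e ?_).trans (Nat.mul_le_mul_right _ hG)
      intro g hg
      simp only [G, Finset.mem_filter] at hg
      exact (hinter _ _ (Ne.symm hg.2.1)).le
    rw [card_Sb] at h3
    omega
  obtain ⟨T, hT1, hT2⟩ := Finset.exists_subset_card_eq hcard
  have hTS : T ⊆ Sb (ι i) (χ i) := hT1.trans Finset.sdiff_subset
  refine ⟨T, hTS, ?_, hT2, ?_⟩
  · rw [Finset.disjoint_left]
    intro x hx hxZ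
    have := Finset.mem_sdiff.1 (hT1 hx)
    exact this.2 (Finset.mem_union_left _ (hZ1 (Finset.mem_inter.2 ⟨hxZ, hsU i this.1⟩)))
  · intro j hj
    by_cases hjG : j ∈ G
    · left
      rw [Finset.disjoint_left]
      intro x hx hxT
      have := Finset.mem_sdiff.1 (hT1 hxT)
      refine this.2 (Finset.mem_union_right _ (Finset.mem_biUnion.2 ⟨j, hjG, ?_⟩))
      exact Finset.mem_inter.2 ⟨hTS hxT, hx⟩
    · right
      have h3 : ¬ e ≤ (Sb (ι j) (χ j) ∩ (Sb (ι i) (χ i) ∪ Z1)).card := by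
        intro hcon
        apply hjG
        simp only [G, Finset.mem_filter]
        exact ⟨Finset.mem_univ _, hj, hcon⟩
      push Not at h3
      refine lt_of_le_of_lt (Finset.card_le_card ?_) h3
      intro x hx
      rw [Finset.mem_inter, Finset.mem_union] at hx
      rw [Finset.mem_inter, Finset.mem_union]
      refine ⟨hx.1, ?_⟩
      rcases hx.2 with hx2 | hx2
      · exact Or.inr (hZ1 (Finset.mem_inter.2 ⟨hx2, hsU j hx.1⟩))
      · exact Or.inl (hTS hx2)

end
end TH130PD
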