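import Mathlib
import Pool.Agent.TH130.PD.Dsg

set_option linter.unusedSectionVars false

namespace TH130PD
open H350MF

noncomputable section

section aff
variable {F V : Type*} [Field F] [Fintype F] [DecidableEq F] [AddCommGroup V] [Module F V]
  [Fintype V] [DecidableEq V] {e : ℕ}

/-- the values of a polynomial with coefficients in `V` -/
def ev (φ : Fin e → V) (a : F) : V := ∑ j : Fin e, a ^ (j : ℕ) • φ j

lemma ev_sub (φ ψ : Fin e → V) (a : F) : ev φ a - ev ψ a = ev (fun j => φ j - ψ j) a := by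
  unfold ev
  rw [← Finset.sum_sub_distrib]
  exact Finset.sum_congr rfl fun j _ => by rw [smul_sub]

lemma ev_mem {W : Submodule F V} {φ : Fin e → V} (h : ∀ j, φ j ∈ W) (a : F) : ev φ a ∈ W :=
  Submodule.sum_mem _ fun j _ => Submodule.smul_mem _ _ (h j)

lemma coeff_mem_of_ev {W : Submodule F V} {φ : Fin e → V} {s : Finset F} (hs : e ≤ s.card)
    (h : ∀ a ∈ s, ev φ a ∈ W) (j : Fin e) : φ j ∈ W := by
  by_contra hj
  obtain ⟨f, hf1, hf2⟩ := Submodule.exists_le_ker_of_notMem hj
  obtain ⟨p, hp⟩ : ∃ p : Polynomial F, p = ∑ i : Fin e,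
      Polynomial.C (f (φ i)) * Polynomial.X ^ (i : ℕ) := ⟨_, rfl⟩
  have hdeg : p.degree < s.card := by
    rw [hp]
    exact (Polynomial.degree_sum_fin_lt _).trans_le (by exact_mod_cast hs)
  have hev : ∀ a ∈ s, p.eval a = 0 := by
    intro a ha
    have h1 : f (ev φ a) = 0 := hf2 (h a ha)
    rw [← h1, hp, Polynomial.eval_finsetSum]
    unfold ev
    rw [map_sum]
    refine Finset.sum_congr rfl fun i _ => ?_
    rw [map_smul, smul_eq_mul, Polynomial.eval_mul, Polynomial.eval_C, Polynomial.eval_pow,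
      Polynomial.eval_X, mul_comm]
  have hp0 := Polynomial.eq_zero_of_degree_lt_of_eval_finset_eq_zero s hdeg hev
  apply hf1
  have h2 : p.coeff (j : ℕ) = f (φ j) := by
    rw [hp, Polynomial.finsetSum_coeff, Finset.sum_eq_single j]
    · rw [Polynomial.coeff_C_mul, Polynomial.coeff_X_pow, if_pos rfl, mul_one]
    · intro i _ hi
      rw [Polynomial.coeff_C_mul, Polynomial.coeff_X_pow, if_neg, mul_zero]
      intro h
      exact hi (Fin.ext h.symm)
    · intro h; exact absurd (Finset.mem_univ _) h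
  rw [← h2, hp0, Polynomial.coeff_zero]

variable {σ : Type*} [Fintype σ] [DecidableEq σ] (ι : F × V ↪ σ)

/-- the block of a polynomial -/
def Blk (φ : Fin e → V) : Finset σ := Finset.univ.image fun a : F => ι (a, ev φ a)

/-- the flats -/
def Flt (ψ : Fin e → V) (W : Submodule F V) : Finset σ := by
  classical
  exact Finset.univ.filter fun x => ∀ q, ι q = x → q.2 - ev ψ q.1 ∈ W

lemma mem_Flt {ψ : Fin e → V} {W : Submodule F V} {x : σ} :
    x ∈ Flt ι ψ W ↔ ∀ q, ι q = x → q.2 - ev ψ q.1 ∈ W := by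
  classical
  unfold Flt
  simp

lemma mem_Flt_ι {ψ : Fin e → V} {W : Submodule F V} {q : F × V} :
    ι q ∈ Flt ι ψ W ↔ q.2 - ev ψ q.1 ∈ W := by
  rw [mem_Flt]
  constructor
  · intro h; exact h q rfl
  · intro h q' hq'
    rwa [ι.injective hq']

lemma mem_Blk {φ : Fin e → V} {x : σ} : x ∈ Blk ι φ ↔ ∃ a : F, ι (a, ev φ a) = x := by
  simp [Blk]

lemma Blk_sub {φ ψ : Fin e → V} {W : Submodule F V} (h : ∀ j, φ j - ψ j ∈ W) :
    Blk ι φ ⊆ Flt ι ψ W := by
  intro x hx
  obtain ⟨a, rfl⟩ := (mem_Blk ι).1 hx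
  rw [mem_Flt_ι]
  change ev φ a - ev ψ a ∈ W
  rw [ev_sub]
  exact ev_mem h a

lemma diff_mem {φ ψ : Fin e → V} {W : Submodule F V}
    (h : e ≤ (Blk ι φ ∩ Flt ι ψ W).card) (j : Fin e) : φ j - ψ j ∈ W := by
  classical
  have h1 : Blk ι φ ∩ Flt ι ψ W ⊆
      (Finset.univ.filter fun a : F => ev φ a - ev ψ a ∈ W).image fun a => ι (a, ev φ a) := by
    intro x hx
    rw [Finset.mem_inter] at hx
    obtain ⟨a, rfl⟩ := (mem_Blk ι).1 hx.1
    rw [mem_Flt_ι] at hx
    exact Finset.mem_image.2 ⟨a, Finset.mem_filter.2 ⟨Finset.mem_univ _, hx.2⟩, rfl⟩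
  have h2 : e ≤ (Finset.univ.filter fun a : F => ev φ a - ev ψ a ∈ W).card :=
    h.trans ((Finset.card_le_card h1).trans Finset.card_image_le)
  refine coeff_mem_of_ev (φ := fun j => φ j - ψ j) h2 ?_ j
  intro a ha
  rw [← ev_sub]
  exact (Finset.mem_filter.1 ha).2

lemma card_Blk (φ : Fin e → V) : (Blk ι φ).card = Fintype.card F := by
  unfold Blk
  rw [Finset.card_image_of_injective, Finset.card_univ]
  intro a b h
  exact (Prod.ext_iff.1 (ι.injective h)).1

lemma diff_mem_of_sub (he : e ≤ Fintype.card F) {φ ψ : Fin e → V} {W : Submodule F V}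
    (h : Blk ι φ ⊆ Flt ι ψ W) (j : Fin e) : φ j - ψ j ∈ W := by
  refine diff_mem ι ?_ j
  rw [Finset.inter_eq_left.2 h, card_Blk]
  exact he

lemma Blk_inter {φ φ' : Fin e → V} (h : φ ≠ φ') : (Blk ι φ ∩ Blk ι φ').card < e := by
  by_contra hcon
  push Not at hcon
  apply h
  funext j
  have h1 : Blk ι φ' ⊆ Flt ι φ' (⊥ : Submodule F V) := by
    refine Blk_sub ι fun j => ?_
    rw [sub_self]
    exact Submodule.zero_mem _
  have h2 := diff_mem ι (ψ := φ') (W := ⊥) (hcon.trans (Finset.card_le_card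
    (Finset.inter_subset_inter_left h1))) j
  rw [Submodule.mem_bot, sub_eq_zero] at h2
  exact h2

/-- the family of the flats -/
def FL (e w : ℕ) : Set (Finset σ) :=
  {U | ∃ (ψ : Fin e → V) (W : Submodule F V), Module.finrank F W ≤ w ∧ U = Flt ι ψ W}

theorem flats_FL {d : ℕ} (he : e ≤ Fintype.card F) {r : ℕ} (φ : Fin r → (Fin e → V)) :
    Flats d e (fun l => Blk ι (φ l)) (FL ι e (d - e)) := by
  classical
  refine ⟨?_, ?_⟩
  · rintro U ⟨ψ, W, _, rfl⟩ l
    by_cases h : (Blk ι (φ l) ∩ Flt ι ψ W).card < e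
    · exact Or.inr h
    · left
      push Not at h
      exact Blk_sub ι (diff_mem ι h)
  · intro j γ hγ
    let G : Finset V := ((Finset.univ : Finset (F × V)).filter fun q => ι q ∈ γ).image
      fun q => q.2 - ev (φ j) q.1
    have hG : G.card ≤ d - e := by
      have h1 : ((Finset.univ : Finset (F × V)).filter fun q => ι q ∈ γ).card ≤ γ.card := by
        refine Finset.card_le_card_of_injOn (fun q => ι q) ?_ ι.injective.injOn
        intro q hq
        simpa using hq
      have h2 := Finset.card_image_le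
        (s := (Finset.univ : Finset (F × V)).filter fun q => ι q ∈ γ)
        (f := fun q : F × V => q.2 - ev (φ j) q.1)
      have h3 : G.card ≤ γ.card := h2.trans h1
      omega
    refine ⟨Flt ι (φ j) (Submodule.span F (G : Set V)), ⟨φ j, Submodule.span F (G : Set V),
      (finrank_span_finset_le_card G).trans hG, rfl⟩, ?_, ?_, ?_⟩
    · refine Blk_sub ι fun i => ?_
      rw [sub_self]
      exact Submodule.zero_mem _
    · intro x hx
      rw [mem_Flt]
      rintro q rfl
      refine Submodule.subset_span ?_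
      rw [Finset.mem_coe, Finset.mem_image]
      exact ⟨q, Finset.mem_filter.2 ⟨Finset.mem_univ _, hx⟩, rfl⟩
    · rintro U' ⟨ψ, W, _, rfl⟩ h1 h2
      have h3 := diff_mem_of_sub ι he h1
      have h4 : Submodule.span F (G : Set V) ≤ W := by
        rw [Submodule.span_le]
        intro y hy
        rw [Finset.mem_coe, Finset.mem_image] at hy
        obtain ⟨q, hq, rfl⟩ := hy
        have h5 := h2 (Finset.mem_filter.1 hq).2
        rw [mem_Flt_ι] at h5
        have h6 : ev (φ j) q.1 - ev ψ q.1 ∈ W := by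
          rw [ev_sub]; exact ev_mem h3 _
        have h7 := Submodule.sub_mem _ h5 h6
        have h8 : q.2 - ev ψ q.1 - (ev (φ j) q.1 - ev ψ q.1) = q.2 - ev (φ j) q.1 := by abel
        rwa [h8] at h7
      intro x hx
      rw [mem_Flt] at hx ⊢
      intro q hq
      have h5 := h4 (hx q hq)
      have h6 : ev (φ j) q.1 - ev ψ q.1 ∈ W := by
        rw [ev_sub]; exact ev_mem h3 _
      have h7 := Submodule.add_mem _ h5 h6
      have h8 : q.2 - ev (φ j) q.1 + (ev (φ j) q.1 - ev ψ q.1) = q.2 - ev ψ q.1 := by abel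
      rwa [h8] at h7

/-- the points of a flat -/
def fpts (ψ : Fin e → V) (W : Submodule F V) : Finset σ :=
  Flt ι ψ W ∩ Finset.univ.map ι

lemma card_fpts (ψ : Fin e → V) (W : Submodule F V) :
    (fpts ι ψ W).card ≤ Fintype.card F * Fintype.card F ^ Module.finrank F W := by
  classical
  have h0 : Fintype.card W = Fintype.card F ^ Module.finrank F W :=
    Module.card_eq_pow_finrank
  have h1 : fpts ι ψ W ⊆ (Finset.univ : Finset (F × W)).image
      fun q => ι (q.1, (q.2 : V) + ev ψ q.1) := by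
    intro x hx
    unfold fpts at hx
    rw [Finset.mem_inter, Finset.mem_map] at hx
    obtain ⟨hx1, q, _, rfl⟩ := hx
    rw [mem_Flt_ι] at hx1
    refine Finset.mem_image.2 ⟨(q.1, ⟨_, hx1⟩), Finset.mem_univ _, ?_⟩
    simp
  refine (Finset.card_le_card h1).trans (Finset.card_image_le.trans ?_)
  rw [Finset.card_univ, Fintype.card_prod, h0]

lemma card_inU (he : e ≤ Fintype.card F) {r : ℕ} {φ : Fin r → (Fin e → V)}
    (hφ : Function.Injective φ) (ψ : Fin e → V) (W : Submodule F V) :
    (inU (fun l => Blk ι (φ l)) (Flt ι ψ W)).card ≤ (Fintype.card F ^ Module.finrank F W) ^ e := by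
  classical
  have h0 : Fintype.card W = Fintype.card F ^ Module.finrank F W :=
    Module.card_eq_pow_finrank
  have h1 : (inU (fun l => Blk ι (φ l)) (Flt ι ψ W)).card ≤
      (Finset.univ : Finset (Fin e → W)).card := by
    refine Finset.card_le_card_of_injOn (fun l => fun j =>
      if h : φ l j - ψ j ∈ W then (⟨_, h⟩ : W) else 0) (fun _ _ => Finset.mem_univ _) ?_
    intro l hl l' hl' heq
    rw [Finset.mem_coe, mem_inU] at hl hl'
    apply hφ
    funext j
    have h2 := congrFun heq j
    have h3 := diff_mem_of_sub ι he hl j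
    have h4 := diff_mem_of_sub ι he hl' j
    simp only [h3, h4, dif_pos, Subtype.mk.injEq] at h2
    exact sub_left_injective h2
  refine h1.trans ?_
  rw [Finset.card_univ, Fintype.card_fun, Fintype.card_fin, h0]

end aff

/-! ### one good configuration for one flat -/

lemma perm_enum {X : Type*} {r : ℕ} (S : Finset (Fin r)) (h : Fin r → X) :
    (List.ofFn fun i : Fin S.card => h (S.orderEmbOfFin rfl i)).Perm (S.toList.map h) := by
  rw [← Multiset.coe_eq_coe, ← Fin.univ_val_map, ← Multiset.map_coe, Finset.coe_toList]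
  conv_rhs => rw [← Finset.map_orderEmbOfFin_univ S rfl]
  rw [Finset.map_val, Multiset.map_map]
  rfl

theorem UB_of_design {σ : Type*} [Fintype σ] [DecidableEq σ] {d e r : ℕ} (he : 0 < e)
    {B B' : Fin r → Finset σ} (S : Finset (Fin r)) (hB : ∀ l, B' l ⊆ B l)
    (hD : Design e (zz d d) d fun i : Fin S.card => B' (S.orderEmbOfFin rfl i)) :
    UB d (bL e (mask B fun x => if x.2 ∈ B' x.1 then 1 else 0) S ++ cL σ) := by
  have h1 := UB_of_EQ (EQ_full he hD S.card le_rfl)
  have h2 : ∀ l, mask B (fun x => if x.2 ∈ B' x.1 then 1 else 0) l = bl (B' l) := by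
    intro l
    funext i
    unfold mask bl
    by_cases h3 : i ∈ B' l
    · simp [h3, hB l h3]
    · simp [h3]
  have h3 : (List.range S.card).map (blc e fun i : Fin S.card => B' (S.orderEmbOfFin rfl i)) =
      List.ofFn fun i : Fin S.card => (bl (B' (S.orderEmbOfFin rfl i)), e) := by
    rw [List.ofFn_eq_map, ← List.map_coe_finRange_eq_range, List.map_map]
    refine List.map_congr_left fun k _ => ?_
    simp only [Function.comp_apply, blc, k.2, dif_pos]
  refine UB_perm ?_ h1
  unfold fullList cL bL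
  refine List.Perm.append_right _ ?_
  refine ((List.reverse_perm _).map _).trans ?_
  rw [h3]
  simp only [h2]
  exact perm_enum S fun l => (bl (B' l), e)

end
end TH130PD
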