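import Mathlib
import Pool.Agent.TH130.PD.Aff
import Pool.Agent.H350R3.MF.Final

set_option linter.unusedSectionVars false

namespace TH130PD
open MvPolynomial H350MF

noncomputable section

section
variable {F V : Type} [Field F] [Fintype F] [DecidableEq F] [AddCommGroup V] [Module F V]
  [Fintype V] [DecidableEq V] {e : ℕ} {σ : Type} [Fintype σ] [DecidableEq σ]

/-- the sub-blocks as partial transversals -/
def bemb {k n0 : ℕ} (ι : F × V ↪ σ) (α : Fin k × Fin n0 ↪ F) (φ : Fin e → V) :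
    Fin k × Fin n0 ↪ σ :=
  ⟨fun x => ι (α x, ev φ (α x)), fun _ _ h =>
    α.injective (Prod.ext_iff.1 (ι.injective h)).1⟩

lemma Sb_bemb {k n0 : ℕ} (ι : F × V ↪ σ) (α : Fin k × Fin n0 ↪ F) (φ : Fin e → V)
    (f : Fin k → Fin n0) : Sb (bemb ι α φ) f ⊆ Blk ι φ := by
  intro x hx
  unfold Sb at hx
  obtain ⟨j, _, rfl⟩ := Finset.mem_image.1 hx
  exact (mem_Blk ι).2 ⟨α (j, f j), rfl⟩

/-- the design inside of one flat -/
theorem UB_flat {d k n0 L : ℕ} (he : 0 < e) (heF : e ≤ Fintype.card F) (hn0 : 0 < n0)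
    (hk : zz d d + L * e + d ≤ k) (hkq : k * n0 ≤ Fintype.card F)
    (hnum : (Fintype.card F) ^ ((d - e) * e) * ((Fintype.card F) ^ (d - e + 1)) ^ (zz d d) *
      2 ^ (2 ^ (k + zz d d)) * (2 ^ k * (k + zz d d) ^ e * n0 ^ (k - e)) ^ (L + 1)
      < (n0 ^ k) ^ (L + 1)) (ι : F × V ↪ σ) {r : ℕ} {φ : Fin r → (Fin e → V)}
    (hφ : Function.Injective φ) {U : Finset σ} (hU : U ∈ FL (F := F) ι e (d - e)) :
    ∃ P0 : Fin r × σ → ℂ, UB d (bL e (mask (fun l => Blk ι (φ l)) P0)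
      (inU (fun l => Blk ι (φ l)) U) ++ cL σ) := by
  classical
  obtain ⟨ψ, W, hW, rfl⟩ := hU
  obtain ⟨B, hB⟩ : ∃ B : Fin r → Finset σ, B = fun l => Blk ι (φ l) := ⟨_, rfl⟩
  obtain ⟨S, hS⟩ : ∃ S, S = inU B (Flt ι ψ W) := ⟨_, rfl⟩
  have hq1 : 1 ≤ Fintype.card F := Fintype.card_pos
  obtain ⟨α⟩ : Nonempty (Fin k × Fin n0 ↪ F) := by
    refine Function.Embedding.nonempty_of_card_le ?_
    rw [Fintype.card_prod, Fintype.card_fin, Fintype.card_fin]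
    exact hkq
  have hScard : S.card ≤ (Fintype.card F) ^ ((d - e) * e) := by
    rw [hS, hB]
    refine (card_inU ι heF hφ ψ W).trans ?_
    rw [← pow_mul]
    exact Nat.pow_le_pow_right hq1 (Nat.mul_le_mul_right _ hW)
  have hSmem : ∀ i : Fin S.card, B (S.orderEmbOfFin rfl i) ⊆ Flt ι ψ W := by
    intro i
    have h1 : S.orderEmbOfFin rfl i ∈ S := Finset.orderEmbOfFin_mem S rfl i
    have h2 : S.orderEmbOfFin rfl i ∈ inU B (Flt ι ψ W) := hS ▸ h1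
    exact mem_inU.1 h2
  have hN : (fpts ι ψ W).card ≤ (Fintype.card F) ^ (d - e + 1) := by
    refine (card_fpts ι ψ W).trans ?_
    rw [pow_succ, mul_comm]
    exact Nat.mul_le_mul_right _ (Nat.pow_le_pow_right hq1 hW)
  have hnum2 : S.card * ((Fintype.card F) ^ (d - e + 1)) ^ (zz d d) *
      2 ^ (2 ^ (k + zz d d)) * (2 ^ k * (k + zz d d) ^ e * n0 ^ (k - e)) ^ (L + 1)
      < (n0 ^ k) ^ (L + 1) := by
    refine lt_of_le_of_lt ?_ hnum
    gcongr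
  obtain ⟨χ, hχ⟩ := exists_subdesign (fun i : Fin S.card => bemb ι α (φ (S.orderEmbOfFin rfl i)))
    (fun i : Fin S.card => B (S.orderEmbOfFin rfl i)) (e := e) (z := zz d d) (t := d) (L := L)
    hn0 hk
    (by
      intro i j hij
      rw [hB]
      refine Blk_inter ι fun h => hij ?_
      exact (S.orderEmbOfFin rfl).injective (hφ h))
    (by
      intro i f
      rw [hB]
      exact Sb_bemb ι α _ f)
    hN
    (by
      intro i
      unfold fpts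
      refine Finset.subset_inter (hSmem i) ?_
      intro x hx
      rw [hB] at hx
      obtain ⟨a, rfl⟩ := (mem_Blk ι).1 hx
      exact Finset.mem_map_of_mem _ (Finset.mem_univ _))
    hnum2
  let χ' : Fin r → Fin k → Fin n0 :=
    Function.extend (S.orderEmbOfFin rfl) χ (fun _ _ => ⟨0, hn0⟩)
  let B' : Fin r → Finset σ := fun l => Sb (bemb ι α (φ l)) (χ' l)
  have hB' : ∀ l, B' l ⊆ B l := by
    intro l
    rw [hB]
    exact Sb_bemb ι α _ _
  have h1 : (fun i : Fin S.card => B' (S.orderEmbOfFin rfl i)) =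
      fun i : Fin S.card => Sb (bemb ι α (φ (S.orderEmbOfFin rfl i))) (χ i) := by
    funext i
    simp only [B', χ']
    rw [(S.orderEmbOfFin rfl).injective.extend_apply]
  have h2 := UB_of_design (d := d) he S hB' (by rw [h1]; exact hχ)
  refine ⟨fun x => if x.2 ∈ B' x.1 then 1 else 0, ?_⟩
  rw [hB, hS, hB] at h2
  exact h2

/-- the upper bound at one configuration -/
theorem UB_conf {d k n0 L : ℕ} (he : 0 < e) (heF : e ≤ Fintype.card F) (hn0 : 0 < n0)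
    (hk : zz d d + L * e + d ≤ k) (hkq : k * n0 ≤ Fintype.card F)
    (hnum : (Fintype.card F) ^ ((d - e) * e) * ((Fintype.card F) ^ (d - e + 1)) ^ (zz d d) *
      2 ^ (2 ^ (k + zz d d)) * (2 ^ k * (k + zz d d) ^ e * n0 ^ (k - e)) ^ (L + 1)
      < (n0 ^ k) ^ (L + 1)) (ι : F × V ↪ σ) {r : ℕ} {φ : Fin r → (Fin e → V)}
    (hφ : Function.Injective φ) :
    ∃ P0 : Fin r × σ → ℂ, UB d (ptList e P0) := by
  classical
  obtain ⟨B, hB⟩ : ∃ B : Fin r → Finset σ, B = fun l => Blk ι (φ l) := ⟨_, rfl⟩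
  have h1 : ∀ U : Finset σ, ∃ Φ : MvPolynomial (Fin r × σ) ℂ, Φ ≠ 0 ∧
      (U ∈ FL (F := F) ι e (d - e) → ∀ P, eval P Φ ≠ 0 →
        UB d (bL e (mask B P) (inU B U) ++ cL σ)) := by
    intro U
    by_cases hU : U ∈ FL (F := F) ι e (d - e)
    · obtain ⟨P0, hP0⟩ := UB_flat (L := L) he heF hn0 hk hkq hnum ι hφ hU
      obtain ⟨Φ, h2, h3⟩ := generic_UB B (inU B U) e d P0 (by rw [hB]; exact hP0)
      exact ⟨Φ, h2, fun _ => h3⟩
    · exact ⟨1, one_ne_zero, fun h => absurd h hU⟩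
  choose Φ hΦ0 hΦ using h1
  have h2 : (∏ U : Finset σ, Φ U) ≠ 0 := Finset.prod_ne_zero_iff.2 fun U _ => hΦ0 U
  obtain ⟨P, hP⟩ : ∃ P : Fin r × σ → ℂ, eval P (∏ U : Finset σ, Φ U) ≠ 0 := by
    by_contra hcon
    push Not at hcon
    exact h2 (MvPolynomial.funext fun w => by rw [hcon w, map_zero])
  rw [map_prod, Finset.prod_ne_zero_iff] at hP
  refine ⟨vPts (mask B P), ?_⟩
  refine UB_vpts (B := B) (Fl := FL (F := F) ι e (d - e)) (mask_supp B P) ?_ ?_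
  · rw [hB]
    exact flats_FL ι heF φ
  · intro U hU
    exact good_of_UB he (mask_supp B P) (hΦ U hU P (hP U (Finset.mem_univ _)))

end

/-- the numerical part -/
lemma exists_num (d e : ℕ) (he : 0 < e) : ∃ q0 L k : ℕ, 0 < k ∧
    zz d d + L * e + d ≤ k ∧ e ≤ q0 ∧ ∀ q, q0 ≤ q → 0 < q / k ∧
      q ^ ((d - e) * e) * (q ^ (d - e + 1)) ^ (zz d d) *
      2 ^ (2 ^ (k + zz d d)) * (2 ^ k * (k + zz d d) ^ e * (q / k) ^ (k - e)) ^ (L + 1)
      < ((q / k) ^ k) ^ (L + 1) := by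
  obtain ⟨z, hz⟩ : ∃ z, z = zz d d := ⟨_, rfl⟩
  obtain ⟨A, hA⟩ : ∃ A, A = (d - e) * e + (d - e + 1) * z := ⟨_, rfl⟩
  obtain ⟨k, hk⟩ : ∃ k, k = z + A * e + d + e := ⟨_, rfl⟩
  obtain ⟨C, hC⟩ : ∃ C, C = (2 * k) ^ A * 2 ^ (2 ^ (k + z)) * (2 ^ k * (k + z) ^ e) ^ (A + 1) :=
    ⟨_, rfl⟩
  have hk0 : 0 < k := by omega
  refine ⟨k * (C + 1) + e, A, k, hk0, by rw [← hz]; omega, by omega, ?_⟩
  intro q hq
  rw [← hz]
  obtain ⟨n0, hn⟩ : ∃ n0, n0 = q / k := ⟨_, rfl⟩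
  have hn0 : C + 1 ≤ n0 := by
    rw [hn, Nat.le_div_iff_mul_le hk0, mul_comm]
    omega
  have hqn : q ≤ 2 * k * n0 := by
    have h1 : q < k * (q / k + 1) := Nat.lt_mul_div_succ q hk0
    rw [← hn] at h1
    have h2 : k * (n0 + 1) ≤ 2 * k * n0 := by nlinarith
    omega
  rw [← hn]
  refine ⟨by omega, ?_⟩
  have hn1 : 1 ≤ n0 := by omega
  have h1 : q ^ ((d - e) * e) * (q ^ (d - e + 1)) ^ z = q ^ A := by
    rw [← pow_mul, ← pow_add, hA]
  have h2 : q ^ A ≤ (2 * k) ^ A * n0 ^ A := by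
    rw [← mul_pow]
    exact Nat.pow_le_pow_left hqn _
  have h3 : (2 ^ k * (k + z) ^ e * n0 ^ (k - e)) ^ (A + 1) =
      (2 ^ k * (k + z) ^ e) ^ (A + 1) * (n0 ^ (k - e)) ^ (A + 1) := by
    rw [mul_pow]
  have h4 : (n0 ^ k) ^ (A + 1) = n0 ^ (e * (A + 1)) * (n0 ^ (k - e)) ^ (A + 1) := by
    rw [← pow_mul, ← pow_mul, ← pow_add, ← Nat.add_mul]
    congr 2
    omega
  have h5 : n0 ^ (A + 1) ≤ n0 ^ (e * (A + 1)) :=
    Nat.pow_le_pow_right hn1 (Nat.le_mul_of_pos_left _ he)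
  have h6 : C * n0 ^ A < n0 ^ (A + 1) := by
    rw [pow_succ, mul_comm]
    exact Nat.mul_lt_mul_of_pos_left (by omega) (by positivity)
  rw [h1, h3, h4]
  calc q ^ A * 2 ^ (2 ^ (k + z)) * ((2 ^ k * (k + z) ^ e) ^ (A + 1) * (n0 ^ (k - e)) ^ (A + 1))
      ≤ (2 * k) ^ A * n0 ^ A * 2 ^ (2 ^ (k + z)) *
        ((2 ^ k * (k + z) ^ e) ^ (A + 1) * (n0 ^ (k - e)) ^ (A + 1)) := by gcongr
    _ = C * n0 ^ A * (n0 ^ (k - e)) ^ (A + 1) := by rw [hC]; ring
    _ < n0 ^ (A + 1) * (n0 ^ (k - e)) ^ (A + 1) :=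
        Nat.mul_lt_mul_of_pos_right h6 (by positivity)
    _ ≤ n0 ^ (e * (A + 1)) * (n0 ^ (k - e)) ^ (A + 1) := Nat.mul_le_mul_right _ h5

/-- one configuration with the expected dimensions for `r ≤ (p ^ a) ^ e` points in
`p ^ (a + 1)` coordinates -/
theorem exists_UB (d e : ℕ) (he : 0 < e) : ∃ p : ℕ, 2 ≤ p ∧
    ∀ (σ : Type) [Fintype σ] [DecidableEq σ] (a r : ℕ), p ^ (a + 1) ≤ Fintype.card σ →
      r ≤ (p ^ a) ^ e → ∃ P0 : Fin r × σ → ℂ, UB d (ptList e P0) := by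
  obtain ⟨q0, L, k, hk0, hk, heq, hq⟩ := exists_num d e he
  obtain ⟨p, hp1, hp2⟩ := Nat.exists_infinite_primes (q0 + 2)
  refine ⟨p, by omega, ?_⟩
  intro σ _ _ a r h1 h2
  have : Fact p.Prime := ⟨hp2⟩
  have hcF : Fintype.card (ZMod p) = p := ZMod.card p
  have hcV : Fintype.card (Fin a → ZMod p) = p ^ a := by
    rw [Fintype.card_fun, Fintype.card_fin, hcF]
  obtain ⟨ι⟩ : Nonempty (ZMod p × (Fin a → ZMod p) ↪ σ) := by
    refine Function.Embedding.nonempty_of_card_le ?_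
    rw [Fintype.card_prod, hcV, hcF, ← pow_succ']
    exact h1
  obtain ⟨φ⟩ : Nonempty (Fin r ↪ (Fin e → (Fin a → ZMod p))) := by
    refine Function.Embedding.nonempty_of_card_le ?_
    rw [Fintype.card_fun, hcV, Fintype.card_fin, Fintype.card_fin]
    exact h2
  obtain ⟨h3, h4⟩ := hq p (by omega)
  refine UB_conf (F := ZMod p) (V := Fin a → ZMod p) (k := k) (n0 := p / k) (L := L) he
    (by rw [hcF]; omega) h3 hk (by rw [hcF]; exact Nat.mul_div_le p k)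
    (by rw [hcF]; exact h4) ι φ.injective

/-- the form used for projective spaces -/
theorem exists_UB_fin (d e : ℕ) (he : 0 < e) : ∃ c : ℝ, 0 < c ∧
    ∀ n r : ℕ, (r : ℝ) ≤ c * (n : ℝ) ^ e →
      ∃ P0 : Fin r × Fin (n + 1) → ℂ, UB d (ptList e P0) := by
  obtain ⟨p, hp, H⟩ := exists_UB d e he
  have hp0 : (0 : ℝ) < p := by
    have : 0 < p := by omega
    exact_mod_cast this
  refine ⟨1 / ((p : ℝ) ^ 2) ^ e, by positivity, ?_⟩
  intro n r hr
  have h1 : (r : ℝ) * ((p : ℝ) ^ 2) ^ e ≤ (n : ℝ) ^ e := by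
    rw [one_div, inv_mul_eq_div, le_div_iff₀ (by positivity)] at hr
    exact hr
  have h2 : r * (p ^ 2) ^ e ≤ n ^ e := by exact_mod_cast h1
  by_cases hn : n + 1 < p
  · have hr0 : r = 0 := by
      by_contra hr0
      have h3 : 1 * (p ^ 2) ^ e ≤ r * (p ^ 2) ^ e := Nat.mul_le_mul_right _ (by omega)
      have h4 : n ^ e < (p ^ 2) ^ e := Nat.pow_lt_pow_left (by nlinarith) he.ne'
      omega
    subst hr0
    refine ⟨fun _ => 0, ?_⟩
    have : ptList e (fun _ : Fin 0 × Fin (n + 1) => (0 : ℂ)) = [] := by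
      unfold ptList
      simp
    rw [this]
    exact UB_of_EQ (EQ_nil d)
  · push Not at hn
    have hlog : 0 < Nat.log p (n + 1) := Nat.log_pos (by omega) hn
    obtain ⟨a, ha⟩ : ∃ a, Nat.log p (n + 1) = a + 1 := ⟨Nat.log p (n + 1) - 1, by omega⟩
    have h3 : p ^ (a + 1) ≤ n + 1 := by
      rw [← ha]; exact Nat.pow_log_le_self p (by omega)
    have h4 : n + 1 < p ^ (a + 2) := by
      have := Nat.lt_pow_succ_log_self (b := p) (by omega) (n + 1)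
      rwa [ha] at this
    refine H (Fin (n + 1)) a r (by rw [Fintype.card_fin]; exact h3) ?_
    have h5 : r * (p ^ 2) ^ e ≤ (p ^ a) ^ e * (p ^ 2) ^ e := by
      refine h2.trans ?_
      rw [← mul_pow, ← pow_add]
      exact Nat.pow_le_pow_left (by omega) _
    exact Nat.le_of_mul_le_mul_right h5 (by positivity)

/-- existence of a nonzero polynomial controlling the generic value -/
theorem exists_poly' {m d : ℕ} (hmd : m ≤ d) :
    ∃ c : ℝ, 0 < c ∧ ∀ n r : ℕ, (r : ℝ) ≤ c * (n : ℝ) ^ (d - m + 1) →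
      ∃ Φ : MvPolynomial (Fin r × Fin (n + 1)) ℂ, Φ ≠ 0 ∧
        ∀ v : Fin r → Fin (n + 1) → ℂ, (∀ i, v i ≠ 0) → eval (fun x => v x.1 x.2) Φ ≠ 0 →
        (Module.finrank ℂ (homogeneousSubmodule (Fin (n + 1)) ℂ d) : ℤ) -
          Module.finrank ℂ (homogeneousSubmodule (Fin (n + 1)) ℂ d ⊓
            Submodule.restrictScalars ℂ (⨅ i, pointIdeal (v i) ^ m : Ideal _) :
              Submodule ℂ (MvPolynomial (Fin (n + 1)) ℂ))
          = ∑ j ∈ Finset.Icc 1 (d / (d - m + 1)), (-1 : ℤ) ^ (j + 1) * (r.choose j : ℤ) *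
              ((n + d - j * (d - m + 1)).choose n : ℤ) := by
  obtain ⟨e, he⟩ : ∃ e, e = d - m + 1 := ⟨_, rfl⟩
  have he0 : 0 < e := by omega
  obtain ⟨c, hc, hdes⟩ := exists_UB_fin d e he0
  refine ⟨c, hc, ?_⟩
  intro n r hr
  rw [← he] at hr
  obtain ⟨P0, hP0⟩ := hdes n r hr
  obtain ⟨Φ, h0, hΦ⟩ := generic_of_UB he0 hP0
  refine ⟨Φ, h0, ?_⟩
  intro v hv hΦv
  rw [inf_eq_K hmd v hv, ← he]
  have h1 := hΦ _ hΦv
  have h2 : (Module.finrank ℂ (homogeneousSubmodule (Fin (n + 1)) ℂ d) : ℤ)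
      = gj (Fin (n + 1)) d := by
    unfold gj
    rw [finrank_Rj]
  rw [h1, h2, Finset.sum_range_succ']
  have h3 : ∑ j ∈ Finset.Icc 1 (d / e), (-1 : ℤ) ^ (j + 1) * (r.choose j : ℤ) *
      ((n + d - j * e).choose n : ℤ) = ∑ l ∈ Finset.range (d / e), (-1 : ℤ) ^ (l + 1 + 1) *
        (r.choose (l + 1) : ℤ) * ((n + d - (l + 1) * e).choose n : ℤ) := by
    rw [← Finset.sum_image (f := fun j => (-1 : ℤ) ^ (j + 1) * (r.choose j : ℤ) *
      ((n + d - j * e).choose n : ℤ)) (g := fun l => l + 1)]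
    · congr 1
      ext j
      simp only [Finset.mem_Icc, Finset.mem_image, Finset.mem_range]
      constructor
      · rintro ⟨h4, h5⟩; exact ⟨j - 1, by omega, by omega⟩
      · rintro ⟨l, hl, rfl⟩; omega
    · intro x _ y _ hxy
      simpa using hxy
  rw [h3]
  have h4 : ∀ l ∈ Finset.range (d / e), (-1 : ℤ) ^ (l + 1 + 1) *
        (r.choose (l + 1) : ℤ) * ((n + d - (l + 1) * e).choose n : ℤ)
      = - ((-1 : ℤ) ^ (l + 1) * (r.choose (l + 1) : ℤ) * gj (Fin (n + 1)) (d - (l + 1) * e)) := by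
    intro l hl
    rw [Finset.mem_range] at hl
    have h5 : (l + 1) * e ≤ d := by
      calc (l + 1) * e ≤ d / e * e := Nat.mul_le_mul_right _ hl
        _ ≤ d := Nat.div_mul_le_self d e
    rw [gj_fin, ← Nat.add_sub_assoc h5]
    ring
  rw [Finset.sum_congr rfl h4, Finset.sum_neg_distrib]
  simp

end
end TH130PD
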